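import Mathlib

namespace Pool.Agent.Results.MP_641e94_nt.LargeM

open Finset

/-- the x-th k-gonal number -/
def p (k x : ℕ) : ℕ := (k - 2) * (x * (x - 1)) / 2 + x

def T : ℕ → ℕ
  | 0 => 0
  | j + 1 => T j + j

theorem T2 (j : ℕ) : 2 * T j + j = j * j := by
  induction j with
  | zero => rfl
  | succ j ih => rw [T]; nlinarith

theorem p2 (u x : ℕ) : p (u + 2) x = u * T x + x := by
  have h : x * (x - 1) = 2 * T x := by
    have := T2 x
    rcases x with _ | x
    · rfl
    · simp only [Nat.add_sub_cancel]; nlinarith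
  rw [p, h, Nat.add_sub_cancel, mul_left_comm, Nat.mul_div_cancel_left _ (by norm_num)]

def Rep (u L v : ℕ) : Prop := ∃ x : ℕ → ℕ, ∑ i ∈ range L, ((u + i) * T (x i) + x i) = v

theorem app {u a b v w : ℕ} (h1 : Rep u a v) (h2 : Rep (u + a) b w) : Rep u (a + b) (v + w) := by
  obtain ⟨x, rfl⟩ := h1
  obtain ⟨y, rfl⟩ := h2
  refine ⟨fun i => if i < a then x i else y (i - a), ?_⟩
  rw [sum_range_add]
  congr 1
  · exact sum_congr rfl fun i hi => by simp [mem_range.1 hi]
  · exact sum_congr rfl fun i _ => by simp [add_assoc]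

theorem one0 (u : ℕ) : Rep u 1 0 := ⟨fun _ => 0, by simp [T]⟩
theorem one1 (u : ℕ) : Rep u 1 1 := ⟨fun _ => 1, by simp [T]⟩
theorem one2 (u : ℕ) : Rep u 1 (u + 2) := ⟨fun _ => 2, by simp [T]⟩

theorem intv (u L : ℕ) : ∀ j v, j ≤ L → j * (u + 2) + T j ≤ v →
    v + T j + 2 * j ≤ j * (u + 2 + L) + L → Rep u L v := by
  induction L with
  | zero =>
    intro j v hj h1 h2
    obtain rfl : j = 0 := by omega
    exact ⟨fun _ => 0, by simp at h2; simp [h2.1]⟩
  | succ L ih =>
    intro j v hj h1 h2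
    by_cases c1 : j ≤ L ∧ v + T j + 2 * j ≤ j * (u + 2 + L) + L
    · exact app (ih j v c1.1 h1 c1.2) (one0 _)
    by_cases c2 : j ≤ L ∧ v + T j + 2 * j = j * (u + 2 + L) + L + 1
    · obtain ⟨w, rfl⟩ : ∃ w, v = w + 1 := ⟨v - 1, by
        have := T2 j
        have : j * j ≤ j * L := Nat.mul_le_mul_left _ c2.1
        have := c2.2
        have : 1 ≤ v := by nlinarith
        omega⟩
      refine app (ih j w c2.1 ?_ (by have := c2.2; omega)) (one1 _)
      have := T2 j
      have : j * j ≤ j * L := Nat.mul_le_mul_left _ c2.1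
      have := c2.2
      have := c2.1
      nlinarith
    rcases j with _ | j
    · exfalso
      simp [T] at h2 c1 c2
      omega
    have hT := T2 j
    rw [T] at h1 h2 c1 c2
    have key : j * (u + 2) + T j + (u + L + 2) ≤ v := by
      rcases Nat.lt_or_ge L (j + 1) with c | c
      · obtain rfl : j = L := by omega
        nlinarith
      · have c3 : (j + 1) * (u + 2 + L) + L + 2 ≤ v + (T j + j) + 2 * (j + 1) := by
          simp only [not_and, not_le] at c1 c2
          have := c1 c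
          have := c2 c
          omega
        have : j * (j + 1) ≤ j * L := Nat.mul_le_mul_left _ c
        nlinarith
    obtain ⟨w, rfl⟩ : ∃ w, v = w + (u + L + 2) := ⟨v - (u + L + 2), by omega⟩
    exact app (ih j w (by omega) (by omega) (by nlinarith)) (one2 _)

theorem chain (u L : ℕ) (hu : 58 ≤ u) (hL : u = L + 31) (b : ℕ) : 2 ≤ b → b ≤ 23 → ∀ v,
    2 * u + 5 ≤ v → v + T b + 2 * b ≤ b * (u + 2 + L) + L → Rep u L v := by
  induction b with
  | zero => omega
  | succ b ih =>
    intro h1 h2 v h3 h4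
    by_cases c : 2 ≤ b ∧ v + T b + 2 * b ≤ b * (u + 2 + L) + L
    · exact ih c.1 (by omega) v h3 c.2
    refine intv u L (b + 1) v (by omega) ?_ h4
    simp only [not_and, not_le] at c
    have hb : b ≤ 22 := by omega
    clear ih h4
    interval_cases b <;> simp [T] at c h1 ⊢ <;> omega

theorem pr (t y : ℕ) (h : y ≤ t) : T (t + y) + T (t - y) + t = t * t + y * y := by
  obtain ⟨s, rfl⟩ := Nat.exists_eq_add_of_le h
  have h1 := T2 (y + s + y)
  have h2 := T2 s
  rw [Nat.add_sub_cancel_left]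
  nlinarith

theorem block (u t N : ℕ) (hN : N ≤ t * t) (s : ℕ) (hs : s + 4 * t = 4 * (t * t)) :
    Rep u 16 ((2 * u + 15) * (s + N) + 16 * t) := by
  obtain ⟨a, b, c, d, h⟩ := Nat.sum_four_squares N
  have ha : a ≤ t := by nlinarith
  have hb : b ≤ t := by nlinarith
  have hc : c ≤ t := by nlinarith
  have hd : d ≤ t := by nlinarith
  have h1 := pr t a ha
  have h2 := pr t b hb
  have h3 := pr t c hc
  have h4 := pr t d hd
  have e : s + N = T (t + a) + T (t - a) + T (t + b) + T (t - b) + T (t + c) + T (t - c)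
      + T (t + d) + T (t - d) := by nlinarith
  have e2 : 16 * t = 2 * ((t + a) + (t - a) + (t + b) + (t - b) + (t + c) + (t - c)
      + (t + d) + (t - d)) := by omega
  rw [e, e2]
  refine ⟨fun i => [t + a, t - a, t + b, t - b, t + c, t - c, t + d, t - d,
    t - d, t + d, t - c, t + c, t - b, t + b, t - a, t + a].getD i 0, ?_⟩
  simp only [sum_range_succ, range_zero, sum_empty, List.getD_cons_zero, List.getD_cons_succ]
  ring

theorem main (u n : ℕ) (hu : 42 ≤ u) : Rep u (u + 1) n := by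
  by_cases c0 : n ≤ u + 1
  · exact intv u (u + 1) 0 n (by omega) (by simp [T]) (by simp [T]; omega)
  by_cases c1 : n ≤ 2 * u + 36
  · exact intv u (u + 1) 1 n (by omega) (by simp [T]; omega) (by simp [T]; omega)
  obtain ⟨L, hL⟩ : ∃ L, u = L + 15 := ⟨u - 15, by omega⟩
  obtain ⟨n', rfl⟩ : ∃ n', n = n' + (2 * u + 37) := ⟨n - (2 * u + 37), by omega⟩
  have ex : ∃ t s D, s + 4 * t = 4 * (t * t) ∧ n' = (2 * u + 15) * s + 16 * t + D ∧
      D < (2 * u + 15) * (8 * t) + 16 := by
    clear c0 c1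
    induction n' with
    | zero => exact ⟨0, 0, 0, by simp, by simp, by simp⟩
    | succ k ih =>
      obtain ⟨t, s, D, h1, h2, h3⟩ := ih
      by_cases c : D + 1 < (2 * u + 15) * (8 * t) + 16
      · exact ⟨t, s, D + 1, h1, by omega, c⟩
      · refine ⟨t + 1, s + 8 * t, 0, by nlinarith, ?_, by positivity⟩
        have : D + 1 = (2 * u + 15) * (8 * t) + 16 := by omega
        nlinarith
  obtain ⟨t, s, D, h1, h2, h3⟩ := ex
  have ex2 : ∃ N r, N ≤ t * t ∧ D = (2 * u + 15) * N + r ∧ r ≤ 16 * (2 * u + 15) + 15 := by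
    by_cases c : D / (2 * u + 15) ≤ t * t
    · refine ⟨D / (2 * u + 15), D % (2 * u + 15), c, (Nat.div_add_mod _ _).symm, ?_⟩
      have := Nat.mod_lt D (show 0 < 2 * u + 15 by omega)
      omega
    · have h4 : (2 * u + 15) * (t * t) ≤ D :=
        (Nat.mul_le_mul_left _ (not_le.1 c).le).trans (Nat.mul_div_le _ _)
      refine ⟨t * t, D - (2 * u + 15) * (t * t), le_rfl, by omega, ?_⟩
      have h5 : 8 * t ≤ t * t + 16 := by nlinarith [sq_nonneg ((t : ℤ) - 4)]
      have h6 : (2 * u + 15) * (8 * t) ≤ (2 * u + 15) * (t * t + 16) := Nat.mul_le_mul_left _ h5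
      rw [mul_add] at h6
      omega
  obtain ⟨N, r, h4, h5, h6⟩ := ex2
  have b1 := block u t N h4 s h1
  have b2 := chain (u + 16) L (by omega) (by omega) 23 (by norm_num) le_rfl (r + (2 * u + 37))
    (by omega) (by simp [T]; omega)
  have b3 := app b1 b2
  have e1 : 16 + L = u + 1 := by omega
  have e2 : (2 * u + 15) * (s + N) + 16 * t + (r + (2 * u + 37)) = n' + (2 * u + 37) := by
    rw [h2, h5]; ring
  rwa [e1, e2] at b3

theorem result (m : ℕ) (hm : 43 ≤ m) (n : ℕ) :
    ∃ x : Fin m → ℕ, n = ∑ i : Fin m, p (m + (i + 1)) (x i) := by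
  obtain ⟨u, rfl⟩ : ∃ u, m = u + 1 := ⟨m - 1, by omega⟩
  obtain ⟨x, hx⟩ := main u n (by omega)
  refine ⟨fun i => x i, ?_⟩
  rw [← hx, ← Fin.sum_univ_eq_sum_range (fun i => (u + i) * T (x i) + x i)]
  refine sum_congr rfl fun i _ => ?_
  rw [show u + 1 + (i + 1) = u + i + 2 by ring, p2]

end Pool.Agent.Results.MP_641e94_nt.LargeM
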